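import Pool.Agent.R336.VQ.Heis5

/-!
# MP_8ba02c_al: an integral form with unbounded denominators

The rank one Heisenberg vertex operator algebra over `ℚ` contains an integral form `J` (containing
the vacuum vector `1` and `2 ω`) on which the values of the invariant form have unbounded
denominators. Paper proof by helper710, formalised by helper336; the general theory of fields
(reconstruction theorem) is the library of project VO (helper345 and others), over `ℚ`.
-/

set_option autoImplicit false

namespace Pool.Agent.Results.MP_8ba02c_al.UnboundedDenominators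

open Pool.Agent.R336.VQ

/-- `B` is a nondegenerate symmetric invariant bilinear form (in the sense of
Frenkel, Huang and Lepowsky) with `B(1,1) = 1`. The invariance
`(Y(a,z)b, c) = (b, Y(exp(zL(1))(-z⁻²)^L(0) a, z⁻¹)c)` is written in components: for `a` of weight
`m`, `(a_n b, c) = (-1)^m ∑_i (1/i!) (b, (L(1)^i a)_(2m-n-i-2) c)`, where `L(1) = ω_2`. The sum has
only finitely many non-zero terms, since `L(1)` lowers weights by `1`. -/
structure IsInvariantForm {V : Type} [AddCommGroup V] [Module ℚ V] (A : VOA V)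
    (B : V →ₗ[ℚ] V →ₗ[ℚ] ℚ) : Prop where
  symm : ∀ a b, B a b = B b a
  nondeg : ∀ a, (∀ b, B a b = 0) → a = 0
  norm : B A.one A.one = 1
  inv : ∀ (m : ℤ) (a : V), a ∈ A.wt m → ∀ (n : ℤ) (b c : V),
    B (A.Y a n b) c = ∑ᶠ i : ℕ, ((-1 : ℚ) ^ m / (Nat.factorial i : ℚ)) *
      B b (A.Y (((A.Y A.omega 2) ^ i) a) (2 * m - n - i - 2) c)

/-- `J` is an integral form: the `ℤ`-span of a `ℚ`-basis of `V`, closed under all products `a_k b`,
containing positive integer multiples of the vacuum and of the conformal vector. -/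
structure IsIntegralForm {V : Type} [AddCommGroup V] [Module ℚ V] (A : VOA V)
    (J : AddSubgroup V) : Prop where
  basis : ∃ (ι : Type) (b : Module.Basis ι ℚ V), J = AddSubgroup.closure (Set.range b)
  closed : ∀ a ∈ J, ∀ b ∈ J, ∀ k : ℤ, A.Y a k b ∈ J
  one : ∃ p : ℕ, 0 < p ∧ p • A.one ∈ J
  omega : ∃ q : ℕ, 0 < q ∧ q • A.omega ∈ J

open Pool.Agent.R336.VQ.Heis MvPolynomial

theorem wt_iff (A : VertexAlgebra PP) (hA : Good A) (m : ℤ) (a : PP) :
    a ∈ (voa A hA).wt m ↔ NN a = (m : ℚ) • a := by
  have h : (voa A hA).wt m = LinearMap.ker (NN.toLinearMap - (m : ℚ) •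
      (LinearMap.id : PP →ₗ[ℚ] PP)) := by
    unfold VOA.wt
    have : (voa A hA).Y (voa A hA).omega 1 = NN.toLinearMap := om_1 hA
    rw [this]
  rw [h, LinearMap.mem_ker, LinearMap.sub_apply, sub_eq_zero]
  rfl

theorem invariant (A : VertexAlgebra PP) (hA : Good A) : IsInvariantForm (voa A hA) B where
  symm := B_symm
  nondeg := B_nondeg
  norm := by
    have : (voa A hA).one = 1 := hA.one
    rw [this]
    exact B_one
  inv := by
    intro m a ha n b c
    rw [wt_iff] at ha
    have hom : (voa A hA).omega = om := rfl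
    have hY : (voa A hA).Y = A.Y := rfl
    rw [hom, hY]
    rcases lt_or_ge m 0 with hm | hm
    · obtain ⟨j, hj⟩ : ∃ j : ℕ, m = -(j : ℤ) - 1 := ⟨(-m - 1).toNat, by omega⟩
      have h0 : a = 0 := by
        apply wt_neg a j
        rw [ha, hj]
        congr 1
        push_cast
        ring
      subst h0
      rw [map_zero, Pi.zero_apply, LinearMap.zero_apply, map_zero, LinearMap.zero_apply]
      symm
      apply finsum_eq_zero_of_forall_eq_zero
      intro i
      rw [map_zero, map_zero, Pi.zero_apply, LinearMap.zero_apply, map_zero, mul_zero]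
    · obtain ⟨k, rfl⟩ := Int.eq_ofNat_of_zero_le hm
      have ha' : NN a = (k : ℚ) • a := by rw [ha]; rfl
      rw [inv_all hA k a ha' n b c]
      symm
      rw [finsum_eq_sum_of_support_subset (s := Finset.range (k + 1))]
      · refine Finset.sum_congr rfl fun i _ => ?_
        rw [zpow_natCast]
      · intro i hi
        rw [Finset.coe_range, Set.mem_Iio]
        by_contra hcon
        apply hi
        show ((-1 : ℚ) ^ (k : ℤ) / (Nat.factorial i : ℚ)) *
          B b (A.Y (((A.Y om 2) ^ i) a) (2 * (k : ℤ) - n - i - 2) c) = 0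
        rw [L1_nil hA k a ha' i (by omega), map_zero, Pi.zero_apply, LinearMap.zero_apply,
          map_zero, mul_zero]

theorem integral (A : VertexAlgebra PP) (hA : Good A) : IsIntegralForm (voa A hA) J where
  basis := ⟨_, zb, J_eq⟩
  closed := fun _ ha _ hb k => closed hA ha hb k
  one := by
    refine ⟨1, one_pos, ?_⟩
    have : (voa A hA).one = 1 := hA.one
    rw [this, one_smul]
    exact ⟨1, map_one Ph⟩
  omega := by
    refine ⟨2, two_pos, ?_⟩
    have h1 : (voa A hA).omega = om := rfl
    rw [h1]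
    refine ⟨X 0 ^ 2, ?_⟩
    show Ph (X 0 ^ 2) = 2 • om
    rw [map_pow, Ph_X]
    have h0 : zz 0 = X 0 := by
      unfold zz cc ep
      rw [if_neg (by norm_num), pow_zero, div_one, C_1, one_mul]
    rw [h0]
    unfold om
    rw [two_smul, ← add_mul, ← C_add]
    norm_num

/-- **Q1 is false.** There are a vertex operator algebra over `ℚ` with an invariant form and an
integral form `J` in it (even containing the vacuum vector) such that for every integer `m > 0`
some value of the form on `J` does not have denominator dividing `m`. -/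
theorem result :
    (∃ (V : Type) (_ : AddCommGroup V) (_ : Module ℚ V) (A : VOA V) (B : V →ₗ[ℚ] V →ₗ[ℚ] ℚ)
      (J : AddSubgroup V), IsInvariantForm A B ∧ IsIntegralForm A J ∧ A.one ∈ J ∧
      ∀ m : ℕ, 0 < m → ∃ a ∈ J, ∃ b ∈ J, ∀ z : ℤ, (m : ℚ) * B a b ≠ z) ∧
    ¬ ∀ (V : Type) [AddCommGroup V] [Module ℚ V] (A : VOA V) (B : V →ₗ[ℚ] V →ₗ[ℚ] ℚ)
      (J : AddSubgroup V), IsInvariantForm A B → IsIntegralForm A J →
      ∃ m : ℕ, 0 < m ∧ ∀ a ∈ J, ∀ b ∈ J, ∃ z : ℤ, (m : ℚ) * B a b = z := by
  obtain ⟨A, hA⟩ := exists_good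
  refine ⟨⟨PP, inferInstance, inferInstance, voa A hA, B, J, invariant A hA, integral A hA, ?_,
    unbounded⟩, ?_⟩
  · have : (voa A hA).one = 1 := hA.one
    rw [this]
    exact ⟨1, map_one Ph⟩
  · intro h
    obtain ⟨m, hm, h1⟩ := h PP (voa A hA) B J (invariant A hA) (integral A hA)
    obtain ⟨a, ha, b, hb, h2⟩ := unbounded m hm
    obtain ⟨z, hz⟩ := h1 a ha b hb
    exact h2 z hz

end Pool.Agent.Results.MP_8ba02c_al.UnboundedDenominators
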